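import Pool.Agent.R645.RegTree

/-!
# MP_5c7113_al, Q1: no nontrivial lattice identity holds in all `Reg(e)`, `e` a finite strict
ordering

If a lattice identity `s = t` holds in the lattice `Reg(e)` for every finite strict ordering `e`,
then it holds in every lattice.
-/

namespace Pool.Agent.Results.MP_5c7113_al.NoLatticeIdentity

open Pool.Agent.R645.RegTree

universe u

theorem result (s t : LTerm)
    (h : ∀ (E : Type) [Finite E] (e : Set (E × E)) (he : IsStrictOrdering e) (F : ℕ → Reg e),
      @LTerm.eval (Reg e) (Reg.lattice e he.2) F s =
        @LTerm.eval (Reg e) (Reg.lattice e he.2) F t) :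
    ∀ (K : Type u) [Lattice K] (v : ℕ → K), s.eval v = t.eval v :=
  fun K _ v => main s t h K v

end Pool.Agent.Results.MP_5c7113_al.NoLatticeIdentity
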